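import Mathlib
import Pool.Agent.H30.T4.Defs
import Pool.Agent.H1.T4.QuoK

/-! Project T4 (MP_68c2bd): the action on a complement of an invariant subspace, modulo the
subgroup that acts trivially. -/

set_option autoImplicit false

namespace Pool.Agent.H36.T4

open NormedSpace Module Pool.Agent.H71.AU Pool.Agent.H14.HP Pool.Agent.H14.HR Pool.Agent.H30.T4
  Pool.Agent.H1.T4

variable {E : Type*} [NormedAddCommGroup E] [NormedSpace ℝ E] {Γ : Type*} [Group Γ]

/-- A projection onto a complement of `V`. -/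
structure Pj (V W : Submodule ℝ E) (P : E →L[ℝ] W) : Prop where
  id : ∀ w : W, P w = w
  sub : ∀ x, x - (P x : E) ∈ V
  van : ∀ v ∈ V, P v = 0

theorem exists_pj [FiniteDimensional ℝ E] (V : Submodule ℝ E) :
    ∃ (W : Submodule ℝ E) (P : E →L[ℝ] W), Pj V W P ∧
      finrank ℝ V + finrank ℝ W = finrank ℝ E := by
  obtain ⟨W, hW⟩ := Submodule.exists_isCompl V
  refine ⟨W, LinearMap.toContinuousLinearMap (W.projectionOnto V hW.symm), ⟨?_, ?_, ?_⟩, ?_⟩
  · intro w
    rw [LinearMap.coe_toContinuousLinearMap']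
    exact Submodule.projectionOnto_apply_left hW.symm w
  · intro x
    rw [LinearMap.coe_toContinuousLinearMap', Submodule.coe_projectionOnto_apply]
    exact Submodule.sub_projection_mem hW.symm x
  · intro v hv
    rw [LinearMap.coe_toContinuousLinearMap']
    exact (Submodule.projectionOnto_apply_eq_zero_iff hW.symm).2 hv
  · exact Submodule.finrank_add_eq_of_isCompl hW

/-- The induced representation on the complement. -/
noncomputable def qr (π : Γ →* (E →L[ℝ] E)) {V W : Submodule ℝ E} (hV : Inv π V)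
    {P : E →L[ℝ] W} (hP : Pj V W P) : Γ →* (W →L[ℝ] W) where
  toFun g := P.comp ((π g).comp W.subtypeL)
  map_one' := by
    ext1 x
    rw [map_one]
    exact hP.id x
  map_mul' g h := by
    ext1 x
    have e1 : P.comp ((π (g * h)).comp W.subtypeL) x = P (π g (π h x)) := by
      rw [map_mul]; rfl
    have e2 : (P.comp ((π g).comp W.subtypeL) * P.comp ((π h).comp W.subtypeL)) x =
      P (π g ((P (π h x) : W) : E)) := rfl
    rw [e1, e2, ← sub_eq_zero, ← map_sub, ← map_sub]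
    exact hP.van _ (hV g _ (hP.sub _))

theorem qr_apply (π : Γ →* (E →L[ℝ] E)) {V W : Submodule ℝ E} (hV : Inv π V)
    {P : E →L[ℝ] W} (hP : Pj V W P) (g : Γ) (x : W) : qr π hV hP g x = P (π g x) := rfl

theorem qr_eq_one (π : Γ →* (E →L[ℝ] E)) {V W : Submodule ℝ E} (hV : Inv π V)
    {P : E →L[ℝ] W} (hP : Pj V W P) (g : Γ) : qr π hV hP g = 1 ↔ g ∈ Kq π V := by
  constructor
  · intro h z
    have h1 : qr π hV hP g (P z) = P z := by rw [h]; rfl
    rw [qr_apply] at h1
    have h2 := hP.sub (π g ((P z : W) : E))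
    rw [h1] at h2
    have h3 := hV g _ (hP.sub z)
    rw [map_sub] at h3
    have h4 := hP.sub z
    have e : π g z - z = (π g z - π g ((P z : W) : E)) + (π g ((P z : W) : E) - ((P z : W) : E)) -
      (z - ((P z : W) : E)) := by abel
    rw [e]
    exact V.sub_mem (V.add_mem h3 h2) h4
  · intro h
    ext1 x
    rw [qr_apply]
    have h1 := hP.van _ (h x)
    rw [map_sub, hP.id, sub_eq_zero] at h1
    exact h1

/-- The representation of the quotient group. -/
noncomputable def qq (π : Γ →* (E →L[ℝ] E)) {V W : Submodule ℝ E} (hV : Inv π V)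
    {P : E →L[ℝ] W} (hP : Pj V W P) [(Kq π V).Normal] : Γ ⧸ Kq π V →* (W →L[ℝ] W) :=
  QuotientGroup.lift (Kq π V) (qr π hV hP) (fun g hg => (qr_eq_one π hV hP g).2 hg)

theorem qq_mk (π : Γ →* (E →L[ℝ] E)) {V W : Submodule ℝ E} (hV : Inv π V)
    {P : E →L[ℝ] W} (hP : Pj V W P) [(Kq π V).Normal] (g : Γ) (x : W) :
    qq π hV hP (QuotientGroup.mk g) x = P (π g x) := rfl

theorem qq_inj (π : Γ →* (E →L[ℝ] E)) {V W : Submodule ℝ E} (hV : Inv π V)
    {P : E →L[ℝ] W} (hP : Pj V W P) [(Kq π V).Normal] : Function.Injective (qq π hV hP) := by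
  have key : ∀ q : Γ ⧸ Kq π V, qq π hV hP q = 1 → q = 1 := by
    intro q hq
    obtain ⟨g, rfl⟩ := QuotientGroup.mk_surjective q
    exact (QuotientGroup.eq_one_iff g).2 ((qr_eq_one π hV hP g).1 hq)
  exact (injective_iff_map_eq_one _).2 key

theorem qq_sys {π : Γ →* (E →L[ℝ] E)} {τ : E →L[ℝ] ℝ} (S : Sys π τ) {V W : Submodule ℝ E}
    (hV : Inv π V) {P : E →L[ℝ] W} (hP : Pj V W P) [(Kq π V).Normal] (hτ : ∀ v ∈ V, τ v = 0)
    (hprop : ∀ R : ℝ, ∃ Φ : Set Γ, Φ.Finite ∧ ∀ (g : Γ) (x v : E), τ x = 1 → ‖x‖ ≤ R → v ∈ V →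
      ‖π g x + v‖ ≤ R → ∃ k ∈ Kq π V, ∃ φ ∈ Φ, g = k * φ) :
    Sys (qq π hV hP) (τ.comp W.subtypeL) := by
  refine ⟨?_, ?_⟩
  · intro q y
    obtain ⟨g, rfl⟩ := QuotientGroup.mk_surjective q
    rw [qq_mk]
    change τ ((P (π g y) : W) : E) = τ (y : E)
    have h1 := hτ _ (hP.sub (π g y))
    rw [map_sub, S.tau, sub_eq_zero] at h1
    exact h1.symm
  · intro R
    obtain ⟨Φ, hΦ, h⟩ := hprop R
    refine (hΦ.image (fun φ : Γ => (QuotientGroup.mk φ : Γ ⧸ Kq π V))).subset ?_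
    rintro q ⟨x, hx, hxR, hq⟩
    obtain ⟨g, rfl⟩ := QuotientGroup.mk_surjective q
    rw [qq_mk] at hq
    obtain ⟨k, hk, φ, hφ, e⟩ := h g x (-(π g x - ((P (π g x) : W) : E))) hx hxR
      (V.neg_mem (hP.sub _)) (by
        have e : π g x + -(π g x - ((P (π g x) : W) : E)) = ((P (π g x) : W) : E) := by abel
        rw [e]
        exact hq)
    refine ⟨φ, hφ, ?_⟩
    change (QuotientGroup.mk φ : Γ ⧸ Kq π V) = QuotientGroup.mk g
    rw [e, QuotientGroup.mk_mul, (QuotientGroup.eq_one_iff k).2 hk, one_mul]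

end Pool.Agent.H36.T4
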