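import Mathlib
import Pool.Agent.H30.T4.Defs
import Pool.Agent.H36.T4.QuoW

/-! Project T4 (MP_68c2bd): the quotient step of the induction, from its ingredients. -/

set_option autoImplicit false

namespace Pool.Agent.H36.T4

open NormedSpace Module Pool.Agent.H71.AU Pool.Agent.H14.HP Pool.Agent.H14.HR Pool.Agent.H30.T4
  Pool.Agent.H1.T4

variable {E : Type} [NormedAddCommGroup E] [NormedSpace ℝ E] [CompleteSpace E]
  [FiniteDimensional ℝ E] {Γ : Type} [Group Γ] {π : Γ →* (E →L[ℝ] E)} {τ : E →L[ℝ] ℝ} {x₀ : E}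
  {A : Subgroup Γ} {n : ℕ}

theorem quo_core (C : Cf π τ x₀ A n) {F : ℕ → Submodule ℝ E}
    (hdim : finrank ℝ (hh π A) = n) (hV : Inv π (Vu π A F))
    (hd : finrank ℝ (Vu π A F) = finrank ℝ (hu π A F))
    (hfib : ∀ R : ℝ, ∃ R' : ℝ, ∀ y v : E, τ y = 1 → ‖y‖ ≤ R → v ∈ Vu π A F →
      ∃ a ∈ A, π a - 1 ∈ JJ F ∧ (∀ z, π a z - z ∈ Vu π A F) ∧ ‖π a (y + v)‖ ≤ R')
    (hZ : ∀ [(Kq π (Vu π A F)).Normal], ∃ f : (Fin (n - finrank ℝ (hu π A F)) → ℤ) →+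
      Additive (A.map (QuotientGroup.mk' (Kq π (Vu π A F)))), Function.Injective f)
    (h0 : hu π A F ≠ ⊥) (ih : ∀ k < n, Thm k) : VS Γ := by
  obtain ⟨hKn, hKvs, hprop⟩ := quoK C hV hfib
  have hle : finrank ℝ (hu π A F) ≤ n := by
    rw [← hdim]
    exact Submodule.finrank_mono inf_le_left
  have hpos : 0 < finrank ℝ (hu π A F) := by
    rw [Module.finrank_pos_iff]
    exact (Submodule.nontrivial_iff_ne_bot).2 h0
  refine ext_vs (Kq π (Vu π A F)) hKvs ?_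
  obtain ⟨f, hf⟩ := hZ
  obtain ⟨W, P, hP, hWd⟩ := exists_pj (Vu π A F)
  have hdW : finrank ℝ W = n - finrank ℝ (hu π A F) + 2 := by
    rw [hd, C.dim] at hWd
    omega
  have hx : τ ((P x₀ : W) : E) = 1 := by
    have h1 := vu_tau C F _ (hP.sub x₀)
    rw [map_sub, C.tx, sub_eq_zero] at h1
    exact h1.symm
  have hWc : CompleteSpace W := FiniteDimensional.complete ℝ W
  refine ih (n - finrank ℝ (hu π A F)) (by omega) W (Γ ⧸ Kq π (Vu π A F)) (qq π hV hP)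
    (τ.comp W.subtypeL) (A.map (QuotientGroup.mk' (Kq π (Vu π A F))))
    (qq_sys C.sys hV hP (vu_tau C F) hprop) (qq_inj π hV hP) ⟨P x₀, hx⟩ ?_ ⟨f, hf⟩ hdW
  rintro _ ⟨a, ha, rfl⟩ _ ⟨b, hb, rfl⟩
  rw [← map_mul, ← map_mul, C.comm a ha b hb]

end Pool.Agent.H36.T4
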